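import Mathlib

/-!
# Fixed point interval arithmetic with kernel evaluation (helper42)

Intervals have integer endpoints, scale `2^40`.  `Iv.Mem x I` : `I.lo ≤ x * 2^40 ≤ I.hi`.
-/

set_option autoImplicit false

namespace Pool.H42IA

/-- comparison of integers, quick in the kernel -/
def leb : Int → Int → Bool
  | .ofNat a, .ofNat b => Nat.ble a b
  | .ofNat _, .negSucc _ => false
  | .negSucc _, .ofNat _ => true
  | .negSucc a, .negSucc b => Nat.ble b a

theorem leb_iff (a b : Int) : leb a b = true ↔ a ≤ b := by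
  cases a with
  | ofNat a =>
    cases b with
    | ofNat b => simp [leb]
    | negSucc b => simp only [leb, Bool.false_eq_true, false_iff, not_le]; exact Int.negSucc_lt_zero b |>.trans_le (Int.natCast_nonneg a)
  | negSucc a =>
    cases b with
    | ofNat b => simp only [leb, true_iff]; exact (Int.negSucc_lt_zero a).le.trans (Int.natCast_nonneg b)
    | negSucc b => simp only [leb, Nat.ble_eq]; omega

def imin (a b : Int) : Int := bif leb a b then a else b
def imax (a b : Int) : Int := bif leb a b then b else a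

theorem imin_eq (a b : Int) : imin a b = min a b := by
  unfold imin
  cases h : leb a b
  · have : ¬ a ≤ b := fun hh => by rw [(leb_iff a b).2 hh] at h; exact absurd h (by simp)
    show b = _
    rw [min_eq_right (not_le.1 this).le]
  · have := (leb_iff a b).1 h
    show a = _
    rw [min_eq_left this]

theorem imax_eq (a b : Int) : imax a b = max a b := by
  unfold imax
  cases h : leb a b
  · have : ¬ a ≤ b := fun hh => by rw [(leb_iff a b).2 hh] at h; exact absurd h (by simp)
    show a = _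
    rw [max_eq_left (not_le.1 this).le]
  · have := (leb_iff a b).1 h
    show b = _
    rw [max_eq_right this]

structure Iv where
  lo : Int
  hi : Int
deriving Repr, Inhabited

/-- `2^40` -/
def S : Int := 1099511627776
def SN : Nat := 1099511627776
def S2 : Int := 1208925819614629174706176

theorem S_pos : (0:ℝ) < (S : ℝ) := by norm_num [S]
theorem S2_eq : (S2 : ℝ) = (S : ℝ) * S := by norm_num [S, S2]

def Mem (x : ℝ) (I : Iv) : Prop := (I.lo : ℝ) ≤ x * S ∧ x * S ≤ (I.hi : ℝ)

/-- floor and ceiling of division by a positive integer -/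
def fdv (a b : Int) : Int := Int.ediv a b
def cdv (a b : Int) : Int := Int.neg (Int.ediv (Int.neg a) b)

theorem fdv_le (a b : Int) (hb : 0 < b) : (fdv a b : ℝ) * b ≤ a := by
  have h : a.ediv b * b ≤ a := Int.ediv_mul_le a hb.ne'
  unfold fdv
  exact_mod_cast h

theorem le_cdv (a b : Int) (hb : 0 < b) : (a : ℝ) ≤ (cdv a b : ℝ) * b := by
  have h : (-a).ediv b * b ≤ -a := Int.ediv_mul_le (-a) hb.ne'
  have h2 : a ≤ (-((-a).ediv b)) * b := by linarith
  unfold cdv
  exact_mod_cast h2

def add (a b : Iv) : Iv := ⟨Int.add a.lo b.lo, Int.add a.hi b.hi⟩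
def neg (a : Iv) : Iv := ⟨Int.neg a.hi, Int.neg a.lo⟩
def sub (a b : Iv) : Iv := ⟨Int.sub a.lo b.hi, Int.sub a.hi b.lo⟩

theorem mem_add {x y : ℝ} {a b : Iv} (hx : Mem x a) (hy : Mem y b) : Mem (x + y) (add a b) := by
  obtain ⟨h1, h2⟩ := hx
  obtain ⟨h3, h4⟩ := hy
  refine ⟨?_, ?_⟩
  · show ((a.lo + b.lo : Int) : ℝ) ≤ _
    push_cast; linarith
  · show _ ≤ ((a.hi + b.hi : Int) : ℝ)
    push_cast; linarith

theorem mem_neg {x : ℝ} {a : Iv} (hx : Mem x a) : Mem (-x) (neg a) := by
  obtain ⟨h1, h2⟩ := hx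
  refine ⟨?_, ?_⟩
  · show ((-a.hi : Int) : ℝ) ≤ _
    push_cast; linarith
  · show _ ≤ ((-a.lo : Int) : ℝ)
    push_cast; linarith

theorem mem_sub {x y : ℝ} {a b : Iv} (hx : Mem x a) (hy : Mem y b) : Mem (x - y) (sub a b) := by
  obtain ⟨h1, h2⟩ := hx
  obtain ⟨h3, h4⟩ := hy
  refine ⟨?_, ?_⟩
  · show ((a.lo - b.hi : Int) : ℝ) ≤ _
    push_cast; linarith
  · show _ ≤ ((a.hi - b.lo : Int) : ℝ)
    push_cast; linarith

/-- unscaled product bounds (scale `S²`) -/
def mulraw (a b : Iv) : Iv :=
  bif leb 0 a.lo then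
    (bif leb 0 b.lo then ⟨Int.mul a.lo b.lo, Int.mul a.hi b.hi⟩
     else bif leb b.hi 0 then ⟨Int.mul a.hi b.lo, Int.mul a.lo b.hi⟩
     else ⟨Int.mul a.hi b.lo, Int.mul a.hi b.hi⟩)
  else bif leb a.hi 0 then
    (bif leb 0 b.lo then ⟨Int.mul a.lo b.hi, Int.mul a.hi b.lo⟩
     else bif leb b.hi 0 then ⟨Int.mul a.hi b.hi, Int.mul a.lo b.lo⟩
     else ⟨Int.mul a.lo b.hi, Int.mul a.lo b.lo⟩)
  else
    (bif leb 0 b.lo then ⟨Int.mul a.lo b.hi, Int.mul a.hi b.hi⟩
     else bif leb b.hi 0 then ⟨Int.mul a.hi b.lo, Int.mul a.lo b.lo⟩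
     else ⟨imin (Int.mul a.lo b.hi) (Int.mul a.hi b.lo), imax (Int.mul a.lo b.lo) (Int.mul a.hi b.hi)⟩)

theorem mulraw_sound {u v : ℝ} {a b : Iv} (h1 : (a.lo : ℝ) ≤ u) (h2 : u ≤ a.hi) (h3 : (b.lo : ℝ) ≤ v)
    (h4 : v ≤ b.hi) : ((mulraw a b).lo : ℝ) ≤ u * v ∧ u * v ≤ ((mulraw a b).hi : ℝ) := by
  have im : ∀ x y : Int, Int.mul x y = x * y := fun _ _ => rfl
  unfold mulraw
  simp only [im]
  cases ha : leb 0 a.lo
  · have ha' : a.lo < 0 := by
      rw [← not_le, ← leb_iff]; simp [ha]
    have ha'' : (a.lo : ℝ) < 0 := by exact_mod_cast ha'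
    simp only [cond_false]
    cases hb : leb a.hi 0
    · have hb' : 0 < a.hi := by
        rw [← not_le, ← leb_iff]; simp [hb]
      have hb'' : (0:ℝ) < (a.hi : ℝ) := by exact_mod_cast hb'
      simp only [cond_false]
      cases hc : leb 0 b.lo
      · have hc' : b.lo < 0 := by
          rw [← not_le, ← leb_iff]; simp [hc]
        have hc'' : (b.lo : ℝ) < 0 := by exact_mod_cast hc'
        simp only [cond_false]
        cases hd : leb b.hi 0
        · have hd' : 0 < b.hi := by
            rw [← not_le, ← leb_iff]; simp [hd]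
          have hd'' : (0:ℝ) < (b.hi : ℝ) := by exact_mod_cast hd'
          simp only [cond_false, imin_eq, imax_eq]
          push_cast
          constructor
          · rcases le_total 0 v with hv | hv
            · exact (min_le_left _ _).trans (by nlinarith)
            · exact (min_le_right _ _).trans (by nlinarith)
          · rcases le_total 0 v with hv | hv
            · exact le_trans (by nlinarith) (le_max_right _ _)
            · exact le_trans (by nlinarith) (le_max_left _ _)
        · have hd' : b.hi ≤ 0 := (leb_iff _ _).1 hd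
          have hd'' : (b.hi : ℝ) ≤ 0 := by exact_mod_cast hd'
          simp only [cond_true]
          push_cast
          constructor <;> nlinarith
      · have hc' : 0 ≤ b.lo := (leb_iff _ _).1 hc
        have hc'' : (0:ℝ) ≤ (b.lo : ℝ) := by exact_mod_cast hc'
        simp only [cond_true]
        push_cast
        constructor <;> nlinarith
    · have hb' : a.hi ≤ 0 := (leb_iff _ _).1 hb
      have hb'' : (a.hi : ℝ) ≤ 0 := by exact_mod_cast hb'
      simp only [cond_true]
      cases hc : leb 0 b.lo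
      · have hc' : b.lo < 0 := by
          rw [← not_le, ← leb_iff]; simp [hc]
        have hc'' : (b.lo : ℝ) < 0 := by exact_mod_cast hc'
        simp only [cond_false]
        cases hd : leb b.hi 0
        · have hd' : 0 < b.hi := by
            rw [← not_le, ← leb_iff]; simp [hd]
          have hd'' : (0:ℝ) < (b.hi : ℝ) := by exact_mod_cast hd'
          simp only [cond_false]
          push_cast
          constructor <;> nlinarith
        · have hd' : b.hi ≤ 0 := (leb_iff _ _).1 hd
          have hd'' : (b.hi : ℝ) ≤ 0 := by exact_mod_cast hd'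
          simp only [cond_true]
          push_cast
          constructor <;> nlinarith
      · have hc' : 0 ≤ b.lo := (leb_iff _ _).1 hc
        have hc'' : (0:ℝ) ≤ (b.lo : ℝ) := by exact_mod_cast hc'
        simp only [cond_true]
        push_cast
        constructor <;> nlinarith
  · have ha' : 0 ≤ a.lo := (leb_iff _ _).1 ha
    have ha'' : (0:ℝ) ≤ (a.lo : ℝ) := by exact_mod_cast ha'
    simp only [cond_true]
    cases hc : leb 0 b.lo
    · have hc' : b.lo < 0 := by
        rw [← not_le, ← leb_iff]; simp [hc]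
      have hc'' : (b.lo : ℝ) < 0 := by exact_mod_cast hc'
      simp only [cond_false]
      cases hd : leb b.hi 0
      · have hd' : 0 < b.hi := by
          rw [← not_le, ← leb_iff]; simp [hd]
        have hd'' : (0:ℝ) < (b.hi : ℝ) := by exact_mod_cast hd'
        simp only [cond_false]
        push_cast
        constructor <;> nlinarith
      · have hd' : b.hi ≤ 0 := (leb_iff _ _).1 hd
        have hd'' : (b.hi : ℝ) ≤ 0 := by exact_mod_cast hd'
        simp only [cond_true]
        push_cast
        constructor <;> nlinarith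
    · have hc' : 0 ≤ b.lo := (leb_iff _ _).1 hc
      have hc'' : (0:ℝ) ≤ (b.lo : ℝ) := by exact_mod_cast hc'
      simp only [cond_true]
      push_cast
      constructor <;> nlinarith

/-- rescale from `S²` to `S` -/
def rs (a : Iv) : Iv := ⟨fdv a.lo S, cdv a.hi S⟩

def mul (a b : Iv) : Iv := rs (mulraw a b)

theorem mem_mul {x y : ℝ} {a b : Iv} (hx : Mem x a) (hy : Mem y b) : Mem (x * y) (mul a b) := by
  obtain ⟨h1, h2⟩ := hx
  obtain ⟨h3, h4⟩ := hy
  obtain ⟨h5, h6⟩ := mulraw_sound h1 h2 h3 h4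
  have hS : (0:ℝ) < (S : ℝ) := S_pos
  have hS' : (0:Int) < S := by decide
  refine ⟨?_, ?_⟩
  · show ((fdv (mulraw a b).lo S : Int) : ℝ) ≤ _
    have := fdv_le (mulraw a b).lo S hS'
    by_contra hc
    push Not at hc
    nlinarith [mul_lt_mul_of_pos_right hc hS]
  · show _ ≤ ((cdv (mulraw a b).hi S : Int) : ℝ)
    have := le_cdv (mulraw a b).hi S hS'
    by_contra hc
    push Not at hc
    nlinarith [mul_lt_mul_of_pos_right hc hS]

/-- square -/
def sqr (a : Iv) : Iv :=
  rs (bif leb 0 a.lo then ⟨Int.mul a.lo a.lo, Int.mul a.hi a.hi⟩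
    else bif leb a.hi 0 then ⟨Int.mul a.hi a.hi, Int.mul a.lo a.lo⟩
    else ⟨0, imax (Int.mul a.lo a.lo) (Int.mul a.hi a.hi)⟩)

theorem mem_sqr {x : ℝ} {a : Iv} (hx : Mem x a) : Mem (x ^ 2) (sqr a) := by
  obtain ⟨h1, h2⟩ := hx
  have hS : (0:ℝ) < (S : ℝ) := S_pos
  have hS' : (0:Int) < S := by decide
  have im : ∀ x y : Int, Int.mul x y = x * y := fun _ _ => rfl
  have key : ∀ I : Iv, (I.lo : ℝ) ≤ (x * S) * (x * S) → (x * S) * (x * S) ≤ (I.hi : ℝ) → Mem (x ^ 2) (rs I) := by
    intro I h5 h6
    refine ⟨?_, ?_⟩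
    · show ((fdv I.lo S : Int) : ℝ) ≤ _
      have := fdv_le I.lo S hS'
      by_contra hc
      push Not at hc
      nlinarith [mul_lt_mul_of_pos_right hc hS]
    · show _ ≤ ((cdv I.hi S : Int) : ℝ)
      have := le_cdv I.hi S hS'
      by_contra hc
      push Not at hc
      nlinarith [mul_lt_mul_of_pos_right hc hS]
  unfold sqr
  simp only [im]
  apply key
  · cases ha : leb 0 a.lo
    · simp only [cond_false]
      cases hb : leb a.hi 0
      · simp only [cond_false]
        push_cast
        nlinarith [sq_nonneg (x * S)]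
      · have hb' : a.hi ≤ 0 := (leb_iff _ _).1 hb
        have hb'' : (a.hi : ℝ) ≤ 0 := by exact_mod_cast hb'
        simp only [cond_true]
        push_cast
        nlinarith
    · have ha' : 0 ≤ a.lo := (leb_iff _ _).1 ha
      have ha'' : (0:ℝ) ≤ (a.lo : ℝ) := by exact_mod_cast ha'
      simp only [cond_true]
      push_cast
      nlinarith
  · cases ha : leb 0 a.lo
    · have ha' : a.lo < 0 := by
        rw [← not_le, ← leb_iff]; simp [ha]
      have ha'' : (a.lo : ℝ) < 0 := by exact_mod_cast ha'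
      simp only [cond_false]
      cases hb : leb a.hi 0
      · have hb' : 0 < a.hi := by
          rw [← not_le, ← leb_iff]; simp [hb]
        have hb'' : (0:ℝ) < (a.hi : ℝ) := by exact_mod_cast hb'
        simp only [cond_false, imax_eq]
        push_cast
        rcases le_total 0 (x * S) with hv | hv
        · exact le_trans (by nlinarith) (le_max_right _ _)
        · exact le_trans (by nlinarith) (le_max_left _ _)
      · have hb' : a.hi ≤ 0 := (leb_iff _ _).1 hb
        have hb'' : (a.hi : ℝ) ≤ 0 := by exact_mod_cast hb'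
        simp only [cond_true]
        push_cast
        nlinarith
    · have ha' : 0 ≤ a.lo := (leb_iff _ _).1 ha
      have ha'' : (0:ℝ) ≤ (a.lo : ℝ) := by exact_mod_cast ha'
      simp only [cond_true]
      push_cast
      nlinarith

/-- rational constants -/
def cst (p : Int) (q : Nat) : Iv := ⟨fdv (Int.mul p S) (Int.ofNat q), cdv (Int.mul p S) (Int.ofNat q)⟩

theorem mem_cst (p : Int) (q : Nat) (hq : 0 < q) : Mem ((p : ℝ) / q) (cst p q) := by
  have hq' : (0:ℝ) < (q:ℝ) := by exact_mod_cast hq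
  have hqi : (0:Int) < Int.ofNat q := by
    simpa using hq
  refine ⟨?_, ?_⟩
  · show ((fdv (p * S) (Int.ofNat q) : Int) : ℝ) ≤ _
    have := fdv_le (p * S) (Int.ofNat q) hqi
    push_cast at this
    have h2 : (((Int.ofNat q : Int)) : ℝ) = (q : ℝ) := by simp
    rw [h2] at this
    rw [div_mul_eq_mul_div, le_div_iff₀ hq']
    exact this
  · show _ ≤ ((cdv (p * S) (Int.ofNat q) : Int) : ℝ)
    have := le_cdv (p * S) (Int.ofNat q) hqi
    push_cast at this
    have h2 : (((Int.ofNat q : Int)) : ℝ) = (q : ℝ) := by simp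
    rw [h2] at this
    rw [div_mul_eq_mul_div, div_le_iff₀ hq']
    exact this

/-- inverse -/
def inv (a : Iv) : Option Iv :=
  bif leb 1 a.lo then some ⟨fdv S2 a.hi, cdv S2 a.lo⟩
  else bif leb a.hi (-1) then some (neg ⟨fdv S2 (Int.neg a.lo), cdv S2 (Int.neg a.hi)⟩)
  else none

theorem inv_pos_sound {x : ℝ} {l h : Int} (hl : 1 ≤ l) (h1 : (l : ℝ) ≤ x * S) (h2 : x * S ≤ h) :
    Mem (x⁻¹) ⟨fdv S2 h, cdv S2 l⟩ := by
  have hS : (0:ℝ) < (S : ℝ) := S_pos
  have hl' : (1:ℝ) ≤ (l : ℝ) := by exact_mod_cast hl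
  have hx : 0 < x := by
    by_contra hc
    push Not at hc
    nlinarith
  have hh : (0:ℝ) < (h : ℝ) := by linarith
  have hh' : (0:Int) < h := by exact_mod_cast hh
  have hxs : 0 < x * S := by positivity
  have e : x⁻¹ * S = (S2 : ℝ) / (x * S) := by
    rw [S2_eq]; field_simp
  refine ⟨?_, ?_⟩
  · show ((fdv S2 h : Int) : ℝ) ≤ _
    rw [e, le_div_iff₀ hxs]
    have := fdv_le S2 h hh'
    have h3 : (0:ℝ) ≤ ((fdv S2 h : Int) : ℝ) := by
      have : (0:Int) ≤ fdv S2 h := Int.ediv_nonneg (by decide) hh'.le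
      exact_mod_cast this
    nlinarith
  · show _ ≤ ((cdv S2 l : Int) : ℝ)
    rw [e, div_le_iff₀ hxs]
    have := le_cdv S2 l (by omega)
    have h3 : (0:ℝ) ≤ ((cdv S2 l : Int) : ℝ) := by
      by_contra hc
      push Not at hc
      have : (0:ℝ) < (S2 : ℝ) := by norm_num [S2]
      nlinarith
    nlinarith

theorem mem_inv {x : ℝ} {a b : Iv} (hx : Mem x a) (hb : inv a = some b) : x ≠ 0 ∧ Mem (x⁻¹) b := by
  obtain ⟨h1, h2⟩ := hx
  have hS : (0:ℝ) < (S : ℝ) := S_pos
  unfold inv at hb
  cases ha : leb 1 a.lo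
  · rw [ha] at hb
    simp only [cond_false] at hb
    cases hc : leb a.hi (-1)
    · rw [hc] at hb
      simp at hb
    · rw [hc] at hb
      simp only [cond_true, Option.some.injEq] at hb
      have hc' : a.hi ≤ -1 := (leb_iff _ _).1 hc
      have hc'' : (a.hi : ℝ) ≤ -1 := by exact_mod_cast hc'
      have := inv_pos_sound (x := -x) (l := -a.hi) (h := -a.lo) (by omega)
        (by push_cast; linarith) (by push_cast; linarith)
      have h3 := mem_neg this
      rw [inv_neg, neg_neg] at h3
      rw [← hb]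
      refine ⟨?_, h3⟩
      rintro rfl
      simp at h2
      linarith
  · rw [ha] at hb
    simp only [cond_true, Option.some.injEq] at hb
    have ha' : 1 ≤ a.lo := (leb_iff _ _).1 ha
    have ha'' : (1:ℝ) ≤ (a.lo : ℝ) := by exact_mod_cast ha'
    have := inv_pos_sound ha' h1 h2
    rw [← hb]
    refine ⟨?_, this⟩
    rintro rfl
    simp at h1
    linarith

end Pool.H42IA
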