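import Pool.Agent.H42.TL.IA

/-!
# Logarithm enclosures (helper42, crew TL)
-/

set_option autoImplicit false

namespace Pool.H42IA

open Real

/-- tail sums of the series of `atanh` -/
noncomputable def T (k : ℕ) (W : ℝ) : ℝ := ∑' j : ℕ, W ^ j / (2 * ((j : ℝ) + k) + 1)

theorem T_summable (k : ℕ) {W : ℝ} (h0 : 0 ≤ W) (h1 : W ≤ 1 / 9) :
    Summable (fun j : ℕ => W ^ j / (2 * ((j : ℝ) + k) + 1)) := by
  refine Summable.of_nonneg_of_le (fun j => by positivity) (fun j => ?_)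
    (summable_geometric_of_lt_one h0 (by linarith))
  rw [div_le_iff₀ (by positivity)]
  have : 0 ≤ W ^ j := by positivity
  nlinarith [(Nat.cast_nonneg j : (0:ℝ) ≤ j), (Nat.cast_nonneg k : (0:ℝ) ≤ k),
    mul_nonneg this (Nat.cast_nonneg j : (0:ℝ) ≤ j), mul_nonneg this (Nat.cast_nonneg k : (0:ℝ) ≤ k)]

theorem T_succ (k : ℕ) {W : ℝ} (h0 : 0 ≤ W) (h1 : W ≤ 1 / 9) :
    T k W = 1 / (2 * (k : ℝ) + 1) + W * T (k + 1) W := by
  unfold T
  rw [(T_summable k h0 h1).tsum_eq_zero_add, ← tsum_mul_left]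
  congr 1
  · simp
  · refine tsum_congr (fun j => ?_)
    push_cast
    rw [pow_succ]
    ring_nf

theorem T_lower (k : ℕ) {W : ℝ} (h0 : 0 ≤ W) (h1 : W ≤ 1 / 9) : 1 / (2 * (k : ℝ) + 1) ≤ T k W := by
  rw [T_succ k h0 h1]
  have : 0 ≤ T (k + 1) W := tsum_nonneg (fun j => by positivity)
  nlinarith [mul_nonneg h0 this]

theorem T_upper (k : ℕ) {W : ℝ} (h0 : 0 ≤ W) (h1 : W ≤ 1 / 9) :
    T k W ≤ (9 / 8) * (1 / (2 * (k : ℝ) + 1)) := by
  have h2 : T k W ≤ ∑' j : ℕ, W ^ j * (1 / (2 * (k : ℝ) + 1)) := by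
    refine (T_summable k h0 h1).tsum_le_tsum (fun j => ?_)
      ((summable_geometric_of_lt_one h0 (by linarith)).mul_right _)
    rw [mul_one_div]
    exact div_le_div_of_nonneg_left (by positivity) (by positivity)
      (by nlinarith [(Nat.cast_nonneg j : (0:ℝ) ≤ j)])
  rw [tsum_mul_right, tsum_geometric_of_lt_one h0 (by linarith)] at h2
  refine h2.trans ?_
  have h3 : (1 - W)⁻¹ ≤ 9 / 8 := by
    rw [inv_le_comm₀ (by linarith) (by norm_num)]
    linarith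
  have : 0 ≤ 1 / (2 * (k : ℝ) + 1) := by positivity
  nlinarith

/-- Horner, lower -/
def hlo (w : ℕ) : ℕ → ℕ → ℕ
  | 0, k => Nat.div SN (Nat.succ (Nat.mul 2 k))
  | n + 1, k => Nat.add (Nat.div SN (Nat.succ (Nat.mul 2 k))) (Nat.div (Nat.mul w (hlo w n (Nat.succ k))) SN)

/-- Horner, upper -/
def hhi (w : ℕ) : ℕ → ℕ → ℕ
  | 0, k => Nat.succ (Nat.div (Nat.mul 9 SN) (Nat.mul 8 (Nat.succ (Nat.mul 2 k))))
  | n + 1, k => Nat.add (Nat.succ (Nat.div SN (Nat.succ (Nat.mul 2 k))))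
      (Nat.succ (Nat.div (Nat.mul w (hhi w n (Nat.succ k))) SN))

theorem div_le_real (a b : ℕ) (_hb : 0 < b) : ((a / b : ℕ) : ℝ) * b ≤ a := by
  exact_mod_cast Nat.div_mul_le_self a b

theorem le_succ_div_real (a b : ℕ) (hb : 0 < b) : (a : ℝ) ≤ ((a / b : ℕ) + 1 : ℝ) * b := by
  have := Nat.lt_div_mul_add (a := a) hb
  have h2 : a ≤ (a / b + 1) * b := by nlinarith
  exact_mod_cast h2

theorem SN_pos : (0:ℝ) < (SN : ℝ) := by norm_num [SN]

theorem hlo_le (w : ℕ) {W : ℝ} (hw : (w : ℝ) ≤ W * SN) (h1 : W ≤ 1 / 9) :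
    ∀ n k : ℕ, (hlo w n k : ℝ) ≤ T k W * SN := by
  have hS := SN_pos
  have h0 : 0 ≤ W := by
    by_contra hc
    push Not at hc
    nlinarith [(Nat.cast_nonneg w : (0:ℝ) ≤ w)]
  intro n
  induction n with
  | zero =>
    intro k
    show ((SN / (2 * k + 1) : ℕ) : ℝ) ≤ _
    have h2 := div_le_real SN (2 * k + 1) (by positivity)
    have h3 := T_lower k h0 h1
    have h4 : (0:ℝ) < 2 * (k:ℝ) + 1 := by positivity
    push_cast at h2
    have h5 : ((SN / (2 * k + 1) : ℕ) : ℝ) ≤ (1 / (2 * (k : ℝ) + 1)) * SN := by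
      rw [one_div, inv_mul_eq_div, le_div_iff₀ h4]
      exact h2
    nlinarith
  | succ n ih =>
    intro k
    show ((SN / (2 * k + 1) + w * hlo w n (k + 1) / SN : ℕ) : ℝ) ≤ _
    have h2 := div_le_real SN (2 * k + 1) (by positivity)
    have h4 : (0:ℝ) < 2 * (k:ℝ) + 1 := by positivity
    push_cast at h2
    have h5 : ((SN / (2 * k + 1) : ℕ) : ℝ) ≤ (1 / (2 * (k : ℝ) + 1)) * SN := by
      rw [one_div, inv_mul_eq_div, le_div_iff₀ h4]
      exact h2
    have h6 := div_le_real (w * hlo w n (k + 1)) SN (by norm_num [SN])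
    have h7 := ih (k + 1)
    rw [T_succ k h0 h1, Nat.cast_add]
    have h8 : ((w * hlo w n (k + 1) : ℕ) : ℝ) ≤ (W * SN) * (T (k + 1) W * SN) := by
      push_cast
      exact mul_le_mul hw h7 (Nat.cast_nonneg _) (by positivity)
    have h9 : ((w * hlo w n (k + 1) / SN : ℕ) : ℝ) ≤ W * T (k + 1) W * SN := by
      by_contra hc
      push Not at hc
      nlinarith [mul_lt_mul_of_pos_right hc hS]
    linarith

theorem hhi_ge (w : ℕ) {W : ℝ} (hw : W * SN ≤ (w : ℝ)) (h0 : 0 ≤ W) (h1 : W ≤ 1 / 9) :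
    ∀ n k : ℕ, T k W * SN ≤ (hhi w n k : ℝ) := by
  have hS := SN_pos
  intro n
  induction n with
  | zero =>
    intro k
    show _ ≤ ((9 * SN / (8 * (2 * k + 1)) + 1 : ℕ) : ℝ)
    have h2 := le_succ_div_real (9 * SN) (8 * (2 * k + 1)) (by positivity)
    have h3 := T_upper k h0 h1
    have h4 : (0:ℝ) < 2 * (k:ℝ) + 1 := by positivity
    push_cast at h2 ⊢
    have h5 : (9 / 8) * (1 / (2 * (k : ℝ) + 1)) * SN ≤ ((9 * SN / (8 * (2 * k + 1)) : ℕ) : ℝ) + 1 := by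
      rw [one_div, mul_assoc, inv_mul_eq_div, mul_div_assoc', div_le_iff₀ h4]
      nlinarith
    nlinarith
  | succ n ih =>
    intro k
    show _ ≤ (((SN / (2 * k + 1)) + 1 + (w * hhi w n (k + 1) / SN + 1) : ℕ) : ℝ)
    have h2 := le_succ_div_real SN (2 * k + 1) (by positivity)
    have h4 : (0:ℝ) < 2 * (k:ℝ) + 1 := by positivity
    push_cast at h2 ⊢
    have h5 : (1 / (2 * (k : ℝ) + 1)) * SN ≤ ((SN / (2 * k + 1) : ℕ) : ℝ) + 1 := by
      rw [one_div, inv_mul_eq_div, div_le_iff₀ h4]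
      exact h2
    have h6 := le_succ_div_real (w * hhi w n (k + 1)) SN (by norm_num [SN])
    have h7 := ih (k + 1)
    rw [T_succ k h0 h1]
    have hT : 0 ≤ T (k + 1) W := tsum_nonneg (fun j => by positivity)
    have h8 : (W * SN) * (T (k + 1) W * SN) ≤ ((w * hhi w n (k + 1) : ℕ) : ℝ) := by
      push_cast
      exact mul_le_mul hw h7 (by positivity) (Nat.cast_nonneg _)
    have h9 : W * T (k + 1) W * SN ≤ ((w * hhi w n (k + 1) / SN : ℕ) : ℝ) + 1 := by
      by_contra hc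
      push Not at hc
      nlinarith [mul_lt_mul_of_pos_right hc hS]
    push_cast at h9
    linarith

theorem log_eq_T {z : ℝ} (h0 : 0 ≤ z) (h1 : z ≤ 1 / 3) :
    Real.log (1 + z) - Real.log (1 - z) = 2 * z * T 0 (z ^ 2) := by
  have hz : |z| < 1 := by rw [abs_of_nonneg h0]; linarith
  have h2 := (Real.hasSum_log_sub_log_of_abs_lt_one hz).tsum_eq
  rw [← h2]
  unfold T
  rw [← tsum_mul_left]
  refine tsum_congr (fun j => ?_)
  simp only [Nat.cast_zero, add_zero]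
  rw [← pow_mul, pow_succ]
  ring

/-- lower bound of `S * (log (1+z) - log (1-z))` for `z = a / b` -/
def atLo (a b : ℕ) : ℕ :=
  (fun z => Nat.div (Nat.mul (Nat.mul 2 z) (hlo (Nat.div (Nat.mul z z) SN) 11 0)) SN)
    (Nat.div (Nat.mul a SN) b)

def atHi (a b : ℕ) : ℕ :=
  (fun z => Nat.succ (Nat.div (Nat.mul (Nat.mul 2 z) (hhi (Nat.succ (Nat.div (Nat.mul z z) SN)) 11 0)) SN))
    (Nat.succ (Nat.div (Nat.mul a SN) b))

theorem atLo_le (a b : ℕ) (hb : 0 < b) (h : 3 * a ≤ b) :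
    (atLo a b : ℝ) ≤ (Real.log (1 + (a : ℝ) / b) - Real.log (1 - (a : ℝ) / b)) * SN := by
  have hS := SN_pos
  have hb' : (0:ℝ) < (b:ℝ) := by exact_mod_cast hb
  have hz0 : (0:ℝ) ≤ (a : ℝ) / b := by positivity
  have hz1 : (a : ℝ) / b ≤ 1 / 3 := by
    rw [div_le_div_iff₀ hb' (by norm_num)]
    have : ((3 * a : ℕ) : ℝ) ≤ b := by exact_mod_cast h
    push_cast at this
    linarith
  rw [log_eq_T hz0 hz1]
  set z : ℝ := (a : ℝ) / b with hz
  have hz2 : z ^ 2 ≤ 1 / 9 := by nlinarith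
  set Z : ℕ := a * SN / b with hZ
  show (((2 * Z) * (hlo (Z * Z / SN) 11 0) / SN : ℕ) : ℝ) ≤ _
  have h1 : (Z : ℝ) ≤ z * SN := by
    have := div_le_real (a * SN) b hb
    rw [hz, div_mul_eq_mul_div, le_div_iff₀ hb']
    push_cast at this
    exact this
  have hw : ((Z * Z / SN : ℕ) : ℝ) ≤ z ^ 2 * SN := by
    have := div_le_real (Z * Z) SN (by norm_num [SN])
    by_contra hc
    push Not at hc
    push_cast at this
    nlinarith [mul_lt_mul_of_pos_right hc hS, (Nat.cast_nonneg Z : (0:ℝ) ≤ Z),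
      mul_le_mul h1 h1 (Nat.cast_nonneg Z) (by positivity)]
  have h2 := hlo_le _ hw hz2 11 0
  have h3 := div_le_real ((2 * Z) * (hlo (Z * Z / SN) 11 0)) SN (by norm_num [SN])
  have h4 : (((2 * Z) * (hlo (Z * Z / SN) 11 0) : ℕ) : ℝ) ≤ (2 * (z * SN)) * (T 0 (z ^ 2) * SN) := by
    push_cast
    exact mul_le_mul (by linarith) h2 (Nat.cast_nonneg _) (by positivity)
  by_contra hc
  push Not at hc
  nlinarith [mul_lt_mul_of_pos_right hc hS]

theorem le_atHi (a b : ℕ) (hb : 0 < b) (h : 3 * a ≤ b) :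
    (Real.log (1 + (a : ℝ) / b) - Real.log (1 - (a : ℝ) / b)) * SN ≤ (atHi a b : ℝ) := by
  have hS := SN_pos
  have hb' : (0:ℝ) < (b:ℝ) := by exact_mod_cast hb
  have hz0 : (0:ℝ) ≤ (a : ℝ) / b := by positivity
  have hz1 : (a : ℝ) / b ≤ 1 / 3 := by
    rw [div_le_div_iff₀ hb' (by norm_num)]
    have : ((3 * a : ℕ) : ℝ) ≤ b := by exact_mod_cast h
    push_cast at this
    linarith
  rw [log_eq_T hz0 hz1]
  set z : ℝ := (a : ℝ) / b with hz
  have hz2 : z ^ 2 ≤ 1 / 9 := by nlinarith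
  set Z : ℕ := a * SN / b + 1 with hZ
  show _ ≤ (((2 * Z) * (hhi (Z * Z / SN + 1) 11 0) / SN + 1 : ℕ) : ℝ)
  have h1 : z * SN ≤ (Z : ℝ) := by
    have := le_succ_div_real (a * SN) b hb
    rw [hz, div_mul_eq_mul_div, div_le_iff₀ hb', hZ]
    push_cast at this ⊢
    exact this
  have hw : z ^ 2 * SN ≤ ((Z * Z / SN + 1 : ℕ) : ℝ) := by
    have := le_succ_div_real (Z * Z) SN (by norm_num [SN])
    by_contra hc
    push Not at hc
    push_cast at this hc
    nlinarith [mul_lt_mul_of_pos_right hc hS, (Nat.cast_nonneg Z : (0:ℝ) ≤ Z),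
      mul_le_mul h1 h1 (by positivity : (0:ℝ) ≤ z * SN) (Nat.cast_nonneg Z)]
  have h2 := hhi_ge _ hw (by positivity) hz2 11 0
  have h3 := le_succ_div_real ((2 * Z) * (hhi (Z * Z / SN + 1) 11 0)) SN (by norm_num [SN])
  have hT : 0 ≤ T 0 (z ^ 2) := tsum_nonneg (fun j => by positivity)
  have h4 : (2 * (z * SN)) * (T 0 (z ^ 2) * SN) ≤ (((2 * Z) * (hhi (Z * Z / SN + 1) 11 0) : ℕ) : ℝ) := by
    rw [Nat.cast_mul]
    push_cast
    exact mul_le_mul (by linarith) h2 (by positivity) (by positivity)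
  by_contra hc
  push Not at hc
  push_cast at hc
  nlinarith [mul_lt_mul_of_pos_right hc hS]

/-- `2^40 log 2` is between these two numbers -/
def L2lo : ℕ := 762123384784
def L2hi : ℕ := 762123384789

theorem log2_lo : (L2lo : ℝ) ≤ Real.log 2 * SN := by
  have h1 := atLo_le 1 3 (by norm_num) (by norm_num)
  have e : Real.log (1 + ((1:ℕ) : ℝ) / (3:ℕ)) - Real.log (1 - ((1:ℕ) : ℝ) / (3:ℕ)) = Real.log 2 := by
    rw [← Real.log_div (by norm_num) (by norm_num)]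
    norm_num
  rw [e] at h1
  have h2 : L2lo ≤ atLo 1 3 := by decide +kernel
  have h3 : (L2lo : ℝ) ≤ (atLo 1 3 : ℝ) := by exact_mod_cast h2
  linarith

theorem log2_hi : Real.log 2 * SN ≤ (L2hi : ℝ) := by
  have h1 := le_atHi 1 3 (by norm_num) (by norm_num)
  have e : Real.log (1 + ((1:ℕ) : ℝ) / (3:ℕ)) - Real.log (1 - ((1:ℕ) : ℝ) / (3:ℕ)) = Real.log 2 := by
    rw [← Real.log_div (by norm_num) (by norm_num)]
    norm_num
  rw [e] at h1
  have h2 : atHi 1 3 ≤ L2hi := by decide +kernel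
  have h3 : (atHi 1 3 : ℝ) ≤ (L2hi : ℝ) := by exact_mod_cast h2
  linarith

def cL (n : ℕ) : ℕ := Nat.mul n 762123384784
def cH (n : ℕ) : ℕ := Nat.mul n 762123384789

theorem cL_eq (n : ℕ) : ((cL n : ℕ) : ℝ) = (n : ℝ) * (L2lo : ℝ) := by
  have : cL n = n * L2lo := rfl
  rw [this, Nat.cast_mul]

theorem cH_eq (n : ℕ) : ((cH n : ℕ) : ℝ) = (n : ℝ) * (L2hi : ℝ) := by
  have : cH n = n * L2hi := rfl
  rw [this, Nat.cast_mul]

/-- `(b - 40) log 2`, lower and upper -/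
def kl2lo (b : ℕ) : Int :=
  bif Nat.ble 40 b then Int.ofNat (cL (Nat.sub b 40)) else Int.neg (Int.ofNat (cH (Nat.sub 40 b)))

def kl2hi (b : ℕ) : Int :=
  bif Nat.ble 40 b then Int.ofNat (cH (Nat.sub b 40)) else Int.neg (Int.ofNat (cL (Nat.sub 40 b)))

theorem cast_ofNat_real (n : ℕ) : ((Int.ofNat n : ℤ) : ℝ) = (n : ℝ) := by
  rw [Int.ofNat_eq_natCast, Int.cast_natCast]

theorem cast_neg_ofNat_real (n : ℕ) : ((Int.neg (Int.ofNat n) : ℤ) : ℝ) = -(n : ℝ) := by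
  have : Int.neg (Int.ofNat n) = -((n : ℕ) : ℤ) := rfl
  rw [this, Int.cast_neg, Int.cast_natCast]

theorem kl2lo_le (b : ℕ) : (kl2lo b : ℝ) ≤ ((b : ℝ) - 40) * Real.log 2 * SN := by
  have h1 := log2_lo
  have h2 := log2_hi
  unfold kl2lo
  cases h : Nat.ble 40 b
  · have hb : ¬ 40 ≤ b := fun hh => by rw [Nat.ble_eq_true_of_le hh] at h; exact absurd h (by simp)
    rw [cond_false]
    have hb2 : b ≤ 40 := by omega
    have e : ((Nat.sub 40 b : ℕ) : ℝ) = 40 - (b : ℝ) := by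
      have : Nat.sub 40 b = 40 - b := rfl
      rw [this, Nat.cast_sub hb2]; norm_num
    rw [cast_neg_ofNat_real, cH_eq, e]
    have hb3 : (b : ℝ) ≤ 40 := by exact_mod_cast hb2
    nlinarith
  · have hb : 40 ≤ b := Nat.le_of_ble_eq_true h
    rw [cond_true]
    have e : ((Nat.sub b 40 : ℕ) : ℝ) = (b : ℝ) - 40 := by
      have : Nat.sub b 40 = b - 40 := rfl
      rw [this, Nat.cast_sub hb]; norm_num
    rw [cast_ofNat_real, cL_eq, e]
    have hb3 : (40 : ℝ) ≤ b := by exact_mod_cast hb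
    nlinarith

theorem le_kl2hi (b : ℕ) : ((b : ℝ) - 40) * Real.log 2 * SN ≤ (kl2hi b : ℝ) := by
  have h1 := log2_lo
  have h2 := log2_hi
  unfold kl2hi
  cases h : Nat.ble 40 b
  · have hb : ¬ 40 ≤ b := fun hh => by rw [Nat.ble_eq_true_of_le hh] at h; exact absurd h (by simp)
    rw [cond_false]
    have hb2 : b ≤ 40 := by omega
    have e : ((Nat.sub 40 b : ℕ) : ℝ) = 40 - (b : ℝ) := by
      have : Nat.sub 40 b = 40 - b := rfl
      rw [this, Nat.cast_sub hb2]; norm_num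
    rw [cast_neg_ofNat_real, cL_eq, e]
    have hb3 : (b : ℝ) ≤ 40 := by exact_mod_cast hb2
    nlinarith
  · have hb : 40 ≤ b := Nat.le_of_ble_eq_true h
    rw [cond_true]
    have e : ((Nat.sub b 40 : ℕ) : ℝ) = (b : ℝ) - 40 := by
      have : Nat.sub b 40 = b - 40 := rfl
      rw [this, Nat.cast_sub hb]; norm_num
    rw [cast_ofNat_real, cH_eq, e]
    have hb3 : (40 : ℝ) ≤ b := by exact_mod_cast hb
    nlinarith

def logLo (n : ℕ) : Int :=
  (fun b => Int.add (Int.ofNat (atLo (Nat.sub n (Nat.pow 2 b)) (Nat.add n (Nat.pow 2 b)))) (kl2lo b)) (Nat.log2 n)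

def logHi (n : ℕ) : Int :=
  (fun b => Int.add (Int.ofNat (atHi (Nat.sub n (Nat.pow 2 b)) (Nat.add n (Nat.pow 2 b)))) (kl2hi b)) (Nat.log2 n)

theorem log_split (n b : ℕ) (hn : 0 < n) (hb : 2 ^ b ≤ n) :
    Real.log ((n : ℝ) / SN) = (Real.log (1 + ((n - 2 ^ b : ℕ) : ℝ) / ((n + 2 ^ b : ℕ) : ℝ))
      - Real.log (1 - ((n - 2 ^ b : ℕ) : ℝ) / ((n + 2 ^ b : ℕ) : ℝ))) + ((b : ℝ) - 40) * Real.log 2 := by
  have hn' : (0:ℝ) < n := by exact_mod_cast hn
  have h2 : (0:ℝ) < 2 ^ b := by positivity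
  have hs : (0:ℝ) < (n:ℝ) + 2 ^ b := by positivity
  push_cast [Nat.cast_sub hb]
  have e1 : 1 + ((n:ℝ) - 2 ^ b) / ((n:ℝ) + 2 ^ b) = 2 * n / ((n:ℝ) + 2 ^ b) := by
    field_simp; ring
  have e2 : 1 - ((n:ℝ) - 2 ^ b) / ((n:ℝ) + 2 ^ b) = 2 * 2 ^ b / ((n:ℝ) + 2 ^ b) := by
    field_simp; ring
  rw [e1, e2, Real.log_div (by positivity) hs.ne', Real.log_div (by positivity) hs.ne',
    Real.log_mul (by norm_num) hn'.ne', Real.log_mul (by norm_num) h2.ne', Real.log_pow,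
    Real.log_div hn'.ne' SN_pos.ne']
  have e3 : Real.log (SN : ℝ) = 40 * Real.log 2 := by
    have : (SN : ℝ) = 2 ^ 40 := by norm_num [SN]
    rw [this, Real.log_pow]
    norm_num
  rw [e3]
  ring

theorem logLo_le (n : ℕ) (hn : 0 < n) : (logLo n : ℝ) ≤ Real.log ((n : ℝ) / SN) * SN := by
  have hb := Nat.log2_self_le hn.ne'
  have hb2 : n < 2 ^ (n.log2 + 1) := Nat.lt_log2_self
  rw [log_split n n.log2 hn hb, add_mul]
  have h1 := atLo_le (n - 2 ^ n.log2) (n + 2 ^ n.log2) (by positivity) (by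
    rw [pow_succ] at hb2
    omega)
  have h2 := kl2lo_le n.log2
  have e : logLo n = Int.ofNat (atLo (n - 2 ^ n.log2) (n + 2 ^ n.log2)) + kl2lo n.log2 := rfl
  rw [e, Int.cast_add, cast_ofNat_real]
  linarith

theorem le_logHi (n : ℕ) (hn : 0 < n) : Real.log ((n : ℝ) / SN) * SN ≤ (logHi n : ℝ) := by
  have hb := Nat.log2_self_le hn.ne'
  have hb2 : n < 2 ^ (n.log2 + 1) := Nat.lt_log2_self
  rw [log_split n n.log2 hn hb, add_mul]
  have h1 := le_atHi (n - 2 ^ n.log2) (n + 2 ^ n.log2) (by positivity) (by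
    rw [pow_succ] at hb2
    omega)
  have h2 := le_kl2hi n.log2
  have e : logHi n = Int.ofNat (atHi (n - 2 ^ n.log2) (n + 2 ^ n.log2)) + kl2hi n.log2 := rfl
  rw [e, Int.cast_add, cast_ofNat_real]
  linarith

/-- natural part -/
def nat (a : Int) : ℕ := match a with
  | .ofNat n => n
  | .negSucc _ => 0

theorem nat_cast {a : Int} (h : 0 ≤ a) : ((nat a : ℕ) : ℝ) = (a : ℝ) := by
  cases a with
  | ofNat n => simp [nat]
  | negSucc n => exact absurd h (by simp)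

def log (a : Iv) : Option Iv :=
  bif leb 1 a.lo then some ⟨logLo (nat a.lo), logHi (nat a.hi)⟩ else none

theorem mem_log {x : ℝ} {a b : Iv} (hx : Mem x a) (hb : log a = some b) : 0 < x ∧ Mem (Real.log x) b := by
  obtain ⟨h1, h2⟩ := hx
  have hS : (0:ℝ) < (S : ℝ) := S_pos
  have hSN : (SN : ℝ) = (S : ℝ) := by norm_num [S, SN]
  unfold log at hb
  cases ha : leb 1 a.lo
  · rw [ha] at hb
    simp at hb
  · rw [ha] at hb
    simp only [cond_true, Option.some.injEq] at hb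
    have ha' : 1 ≤ a.lo := (leb_iff _ _).1 ha
    have ha'' : (1:ℝ) ≤ (a.lo : ℝ) := by exact_mod_cast ha'
    have hh : (1:ℝ) ≤ (a.hi : ℝ) := by linarith
    have hh' : 1 ≤ a.hi := by exact_mod_cast hh
    have hx0 : 0 < x := by
      by_contra hc
      push Not at hc
      nlinarith
    rw [← hb]
    refine ⟨hx0, ?_, ?_⟩
    · have e := nat_cast (show 0 ≤ a.lo by omega)
      have hp : 0 < nat a.lo := by
        have : (0:ℝ) < ((nat a.lo : ℕ) : ℝ) := by rw [e]; linarith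
        exact_mod_cast this
      have := logLo_le (nat a.lo) hp
      rw [e, hSN] at this
      refine this.trans ?_
      refine mul_le_mul_of_nonneg_right ?_ hS.le
      refine Real.log_le_log (by positivity) ?_
      rw [div_le_iff₀ hS]
      exact h1
    · have e := nat_cast (show 0 ≤ a.hi by omega)
      have hp : 0 < nat a.hi := by
        have : (0:ℝ) < ((nat a.hi : ℕ) : ℝ) := by rw [e]; linarith
        exact_mod_cast this
      have := le_logHi (nat a.hi) hp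
      rw [e, hSN] at this
      refine le_trans ?_ this
      refine mul_le_mul_of_nonneg_right ?_ hS.le
      refine Real.log_le_log hx0 ?_
      rw [le_div_iff₀ hS]
      exact h2

end Pool.H42IA
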