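import Pool.Agent.H42.TL.IALog

/-!
# Expressions, programs, automatic differentiation, mean value form (helper42, crew TL)
-/

set_option autoImplicit false

namespace Pool.H42IA

inductive X
  | c (p : Int) (q : Nat)
  | v (i : Nat)
  | add (a b : X)
  | sub (a b : X)
  | mul (a b : X)
  | neg (a : X)
  | inv (a : X)
  | sq (a : X)
  | log (a : X)

/-- real value -/
noncomputable def X.r : X → List ℝ → ℝ
  | .c p q, _ => (p : ℝ) / (q : ℝ)
  | .v i, ρ => ρ.getD i 0
  | .add a b, ρ => a.r ρ + b.r ρ
  | .sub a b, ρ => a.r ρ - b.r ρ
  | .mul a b, ρ => a.r ρ * b.r ρ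
  | .neg a, ρ => -a.r ρ
  | .inv a, ρ => (a.r ρ)⁻¹
  | .sq a, ρ => (a.r ρ) ^ 2
  | .log a, ρ => Real.log (a.r ρ)

def o2 (f : Iv → Iv → Iv) : Option Iv → Option Iv → Option Iv
  | some a, some b => some (f a b)
  | _, _ => none

def o1 (f : Iv → Iv) : Option Iv → Option Iv
  | some a => some (f a)
  | none => none

def ob (f : Iv → Option Iv) : Option Iv → Option Iv
  | some a => f a
  | none => none

/-- interval value -/
def X.i : X → List Iv → Option Iv
  | .c p q, _ => bif Nat.ble 1 q then some (cst p q) else none
  | .v i, ρ => some (ρ.getD i ⟨0, 0⟩)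
  | .add a b, ρ => o2 Pool.H42IA.add (a.i ρ) (b.i ρ)
  | .sub a b, ρ => o2 Pool.H42IA.sub (a.i ρ) (b.i ρ)
  | .mul a b, ρ => o2 Pool.H42IA.mul (a.i ρ) (b.i ρ)
  | .neg a, ρ => o1 Pool.H42IA.neg (a.i ρ)
  | .inv a, ρ => ob Pool.H42IA.inv (a.i ρ)
  | .sq a, ρ => o1 Pool.H42IA.sqr (a.i ρ)
  | .log a, ρ => ob Pool.H42IA.log (a.i ρ)

theorem mem_zero : Mem 0 ⟨0, 0⟩ := by simp [Mem]

theorem forall₂_getD {α β : Type*} {R : α → β → Prop} {l : List α} {m : List β}
    (h : List.Forall₂ R l m) (a : α) (b : β) (hab : R a b) (i : ℕ) : R (l.getD i a) (m.getD i b) := by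
  induction h generalizing i with
  | nil => simpa using hab
  | cons h1 _ ih =>
    cases i with
    | zero => simpa using h1
    | succ i => simpa using ih i

theorem X.i_sound (e : X) {ρ : List ℝ} {σ : List Iv} (h : List.Forall₂ Mem ρ σ) :
    ∀ I : Iv, e.i σ = some I → Mem (e.r ρ) I := by
  induction e with
  | c p q =>
    intro I hI
    simp only [X.i] at hI
    cases hq : Nat.ble 1 q
    · rw [hq] at hI; simp at hI
    · rw [hq] at hI
      simp only [cond_true, Option.some.injEq] at hI
      rw [← hI]
      exact mem_cst p q (Nat.le_of_ble_eq_true hq)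
  | v i =>
    intro I hI
    simp only [X.i, Option.some.injEq] at hI
    rw [← hI]
    exact forall₂_getD h 0 ⟨0, 0⟩ mem_zero i
  | add a b iha ihb =>
    intro I hI
    simp only [X.i] at hI
    cases ha : a.i σ with
    | none => rw [ha] at hI; simp [o2] at hI
    | some A =>
      cases hb : b.i σ with
      | none => rw [ha, hb] at hI; simp [o2] at hI
      | some B =>
        rw [ha, hb] at hI
        simp only [o2, Option.some.injEq] at hI
        rw [← hI]
        exact mem_add (iha A ha) (ihb B hb)
  | sub a b iha ihb =>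
    intro I hI
    simp only [X.i] at hI
    cases ha : a.i σ with
    | none => rw [ha] at hI; simp [o2] at hI
    | some A =>
      cases hb : b.i σ with
      | none => rw [ha, hb] at hI; simp [o2] at hI
      | some B =>
        rw [ha, hb] at hI
        simp only [o2, Option.some.injEq] at hI
        rw [← hI]
        exact mem_sub (iha A ha) (ihb B hb)
  | mul a b iha ihb =>
    intro I hI
    simp only [X.i] at hI
    cases ha : a.i σ with
    | none => rw [ha] at hI; simp [o2] at hI
    | some A =>
      cases hb : b.i σ with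
      | none => rw [ha, hb] at hI; simp [o2] at hI
      | some B =>
        rw [ha, hb] at hI
        simp only [o2, Option.some.injEq] at hI
        rw [← hI]
        exact mem_mul (iha A ha) (ihb B hb)
  | neg a iha =>
    intro I hI
    simp only [X.i] at hI
    cases ha : a.i σ with
    | none => rw [ha] at hI; simp [o1] at hI
    | some A =>
      rw [ha] at hI
      simp only [o1, Option.some.injEq] at hI
      rw [← hI]
      exact mem_neg (iha A ha)
  | inv a iha =>
    intro I hI
    simp only [X.i] at hI
    cases ha : a.i σ with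
    | none => rw [ha] at hI; simp [ob] at hI
    | some A =>
      rw [ha] at hI
      simp only [ob] at hI
      exact (mem_inv (iha A ha) hI).2
  | sq a iha =>
    intro I hI
    simp only [X.i] at hI
    cases ha : a.i σ with
    | none => rw [ha] at hI; simp [o1] at hI
    | some A =>
      rw [ha] at hI
      simp only [o1, Option.some.injEq] at hI
      rw [← hI]
      exact mem_sqr (iha A ha)
  | log a iha =>
    intro I hI
    simp only [X.i] at hI
    cases ha : a.i σ with
    | none => rw [ha] at hI; simp [ob] at hI
    | some A =>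
      rw [ha] at hI
      simp only [ob] at hI
      exact (mem_log (iha A ha) hI).2

/-- run a program: each expression is evaluated in the current environment and appended -/
noncomputable def runR : List X → List ℝ → List ℝ
  | [], ρ => ρ
  | e :: es, ρ => runR es (ρ ++ [e.r ρ])

def runI : List X → List Iv → Option (List Iv)
  | [], ρ => some ρ
  | e :: es, ρ => match e.i ρ with
    | none => none
    | some I => runI es (ρ ++ [I])

theorem forall₂_snoc {α β : Type*} {R : α → β → Prop} {l : List α} {m : List β} {a : α} {b : β}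
    (h : List.Forall₂ R l m) (hab : R a b) : List.Forall₂ R (l ++ [a]) (m ++ [b]) := by
  induction h with
  | nil => exact List.Forall₂.cons hab List.Forall₂.nil
  | cons h1 _ ih => exact List.Forall₂.cons h1 ih

theorem runI_sound (es : List X) : ∀ {ρ : List ℝ} {σ : List Iv}, List.Forall₂ Mem ρ σ →
    ∀ σ' : List Iv, runI es σ = some σ' → List.Forall₂ Mem (runR es ρ) σ' := by
  induction es with
  | nil =>
    intro ρ σ h σ' hs
    simp only [runI, Option.some.injEq] at hs
    rw [← hs]
    exact h
  | cons e es ih =>
    intro ρ σ h σ' hs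
    simp only [runI] at hs
    cases he : e.i σ with
    | none => rw [he] at hs; simp at hs
    | some I =>
      rw [he] at hs
      exact ih (forall₂_snoc h (e.i_sound h I he)) σ' hs

/-! ### automatic differentiation -/

structure Dv where
  v : Iv
  d : List Iv

def zipW (f : Iv → Iv → Iv) : List Iv → List Iv → List Iv
  | a :: as, b :: bs => f a b :: zipW f as bs
  | _, _ => []

def mapI (f : Iv → Iv) : List Iv → List Iv
  | a :: as => f a :: mapI f as
  | [] => []

def p2 (f : Dv → Dv → Dv) : Option Dv → Option Dv → Option Dv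
  | some a, some b => some (f a b)
  | _, _ => none

def p1 (f : Dv → Option Dv) : Option Dv → Option Dv
  | some a => f a
  | none => none

def dinv (a : Dv) : Option Dv :=
  match inv a.v with
  | none => none
  | some r => some ⟨r, (fun r2 => mapI (mul r2) a.d) (neg (sqr r))⟩

def dlog (a : Dv) : Option Dv :=
  match log a.v with
  | none => none
  | some l => match inv a.v with
    | none => none
    | some r => some ⟨l, mapI (mul r) a.d⟩

def dmul (a b : Dv) : Dv :=
  ⟨mul a.v b.v, zipW (fun da db => add (mul b.v da) (mul a.v db)) a.d b.d⟩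

def dsq (a : Dv) : Dv := ⟨sqr a.v, (fun a2 => mapI (mul a2) a.d) (add a.v a.v)⟩

def X.d (z : List Iv) : X → List Dv → Option Dv
  | .c p q, _ => bif Nat.ble 1 q then some ⟨cst p q, z⟩ else none
  | .v i, ρ => some (ρ.getD i ⟨⟨0, 0⟩, z⟩)
  | .add a b, ρ => p2 (fun a b => ⟨Pool.H42IA.add a.v b.v, zipW Pool.H42IA.add a.d b.d⟩) (a.d z ρ) (b.d z ρ)
  | .sub a b, ρ => p2 (fun a b => ⟨Pool.H42IA.sub a.v b.v, zipW Pool.H42IA.sub a.d b.d⟩) (a.d z ρ) (b.d z ρ)
  | .mul a b, ρ => p2 dmul (a.d z ρ) (b.d z ρ)
  | .neg a, ρ => p1 (fun a => some ⟨Pool.H42IA.neg a.v, mapI Pool.H42IA.neg a.d⟩) (a.d z ρ)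
  | .inv a, ρ => p1 dinv (a.d z ρ)
  | .sq a, ρ => p1 (fun a => some (dsq a)) (a.d z ρ)
  | .log a, ρ => p1 dlog (a.d z ρ)

/-- scalar product -/
def dot : List ℝ → List ℝ → ℝ
  | a :: as, b :: bs => a * b + dot as bs
  | _, _ => 0

/-- `D` encloses the value and the derivative of `g` at `t`, the derivative being
`∑ p_j h_j` with `p_j` in the intervals of `D.d` -/
def DM (t : ℝ) (h : List ℝ) (g : ℝ → ℝ) (D : Dv) : Prop :=
  Mem (g t) D.v ∧ ∃ p : List ℝ, List.Forall₂ Mem p D.d ∧ p.length = h.length ∧ HasDerivAt g (dot p h) t

theorem dot_lin (a b : ℝ) : ∀ (p q h : List ℝ), p.length = h.length → q.length = h.length →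
    dot (List.zipWith (fun x y => a * x + b * y) p q) h = a * dot p h + b * dot q h := by
  intro p
  induction p with
  | nil =>
    intro q h h1 h2
    cases h with
    | nil => cases q <;> simp [dot]
    | cons y h => simp at h1
  | cons x p ih =>
    intro q h h1 h2
    cases h with
    | nil => simp at h1
    | cons y h =>
      cases q with
      | nil => simp at h2
      | cons w q =>
        simp only [List.zipWith_cons_cons, dot]
        rw [ih q h (by simpa using h1) (by simpa using h2)]
        ring

theorem dot_smul (a : ℝ) : ∀ (p h : List ℝ), dot (List.map (fun x => a * x) p) h = a * dot p h := by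
  intro p
  induction p with
  | nil => intro h; simp [dot]
  | cons x p ih =>
    intro h
    cases h with
    | nil => simp [dot]
    | cons y h => simp only [List.map_cons, dot]; rw [ih h]; ring

theorem forall₂_zip {P Q : List Iv} {p q : List ℝ} (f : ℝ → ℝ → ℝ) (F : Iv → Iv → Iv)
    (hF : ∀ x y X Y, Mem x X → Mem y Y → Mem (f x y) (F X Y))
    (hp : List.Forall₂ Mem p P) (hq : List.Forall₂ Mem q Q) :
    List.Forall₂ Mem (List.zipWith f p q) (zipW F P Q) := by
  induction hp generalizing q Q with
  | nil => cases hq <;> simp [zipW]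
  | cons h1 _ ih =>
    cases hq with
    | nil => simp [zipW]
    | cons h2 h3 => exact List.Forall₂.cons (hF _ _ _ _ h1 h2) (ih h3)

theorem forall₂_mapI {P : List Iv} {p : List ℝ} (f : ℝ → ℝ) (F : Iv → Iv)
    (hF : ∀ x X, Mem x X → Mem (f x) (F X)) (hp : List.Forall₂ Mem p P) :
    List.Forall₂ Mem (List.map f p) (mapI F P) := by
  induction hp with
  | nil => simp [mapI]
  | cons h1 _ ih => exact List.Forall₂.cons (hF _ _ h1) ih

theorem DM.lin {t : ℝ} {h : List ℝ} {f g k : ℝ → ℝ} {A B : Dv} {C : Iv} {F : Iv → Iv → Iv} {a b : ℝ}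
    (hf : DM t h f A) (hg : DM t h g B)
    (hC : Mem (k t) C)
    (hF : ∀ x y X Y, Mem x X → Mem y Y → Mem (a * x + b * y) (F X Y))
    (hk : ∀ f' g' : ℝ, HasDerivAt f f' t → HasDerivAt g g' t → HasDerivAt k (a * f' + b * g') t) :
    DM t h k ⟨C, zipW F A.d B.d⟩ := by
  obtain ⟨_, p, hp1, hp2, hp3⟩ := hf
  obtain ⟨_, q, hq1, hq2, hq3⟩ := hg
  refine ⟨hC, List.zipWith (fun x y => a * x + b * y) p q, forall₂_zip _ F hF hp1 hq1, ?_, ?_⟩
  · simp [hp2, hq2]
  · rw [dot_lin a b p q h hp2 hq2]
    exact hk _ _ hp3 hq3

theorem DM.un {t : ℝ} {h : List ℝ} {f k : ℝ → ℝ} {A : Dv} {C : Iv} {F : Iv → Iv} {a : ℝ}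
    (hf : DM t h f A)
    (hC : Mem (k t) C)
    (hF : ∀ x X, Mem x X → Mem (a * x) (F X))
    (hk : ∀ f' : ℝ, HasDerivAt f f' t → HasDerivAt k (a * f') t) :
    DM t h k ⟨C, mapI F A.d⟩ := by
  obtain ⟨_, p, hp1, hp2, hp3⟩ := hf
  refine ⟨hC, List.map (fun x => a * x) p, forall₂_mapI _ F hF hp1, ?_, ?_⟩
  · simp [hp2]
  · rw [dot_smul]
    exact hk _ hp3

theorem getD_map (fs : List (ℝ → ℝ)) (t : ℝ) (i : ℕ) :
    (fs.map (fun f => f t)).getD i 0 = (fs.getD i (fun _ => 0)) t := by
  induction fs generalizing i with
  | nil => simp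
  | cons f fs ih =>
    cases i with
    | zero => simp
    | succ i => simpa using ih i

theorem dot_zero (z : List Iv) (h : List ℝ) (hz : List.Forall₂ Mem (h.map (fun _ => (0:ℝ))) z) :
    ∃ p : List ℝ, List.Forall₂ Mem p z ∧ p.length = h.length ∧ dot p h = 0 := by
  refine ⟨_, hz, by simp, ?_⟩
  clear hz
  induction h with
  | nil => simp [dot]
  | cons y h ih =>
    simp only [List.map_cons, dot, zero_mul, zero_add]
    exact ih

theorem X.d_sound (e : X) {fs : List (ℝ → ℝ)} {Ds : List Dv} {t : ℝ} {h : List ℝ} {z : List Iv}
    (hz : List.Forall₂ Mem (h.map (fun _ => (0:ℝ))) z)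
    (H : List.Forall₂ (DM t h) fs Ds) :
    ∀ D : Dv, e.d z Ds = some D → DM t h (fun t => e.r (fs.map (fun f => f t))) D := by
  induction e with
  | c p q =>
    intro D hD
    simp only [X.d] at hD
    cases hq : Nat.ble 1 q
    · rw [hq] at hD; simp at hD
    · rw [hq] at hD
      simp only [cond_true, Option.some.injEq] at hD
      rw [← hD]
      obtain ⟨p', h1, h2, h3⟩ := dot_zero z h hz
      refine ⟨mem_cst p q (Nat.le_of_ble_eq_true hq), p', h1, h2, ?_⟩
      rw [h3]
      exact hasDerivAt_const _ _
  | v i =>
    intro D hD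
    simp only [X.d, Option.some.injEq] at hD
    rw [← hD]
    have h0 : DM t h (fun _ => 0) ⟨⟨0, 0⟩, z⟩ := by
      obtain ⟨p', h1, h2, h3⟩ := dot_zero z h hz
      refine ⟨mem_zero, p', h1, h2, ?_⟩
      rw [h3]
      exact hasDerivAt_const _ _
    have := forall₂_getD H (fun _ => 0) ⟨⟨0, 0⟩, z⟩ h0 i
    have e2 : (fun t => (X.v i).r (fs.map (fun f => f t))) = fs.getD i (fun _ => 0) := by
      funext t
      exact getD_map fs t i
    rw [e2]
    exact this
  | add a b iha ihb =>
    intro D hD
    simp only [X.d] at hD
    cases ha : a.d z Ds with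
    | none => rw [ha] at hD; simp [p2] at hD
    | some A =>
      cases hb : b.d z Ds with
      | none => rw [ha, hb] at hD; simp [p2] at hD
      | some B =>
        rw [ha, hb] at hD
        simp only [p2, Option.some.injEq] at hD
        rw [← hD]
        refine DM.lin (a := 1) (b := 1) (iha A ha) (ihb B hb) (mem_add (iha A ha).1 (ihb B hb).1) ?_ ?_
        · intro x y X Y hx hy
          rw [one_mul, one_mul]
          exact mem_add hx hy
        · intro f' g' hf hg
          rw [one_mul, one_mul]
          exact hf.add hg
  | sub a b iha ihb =>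
    intro D hD
    simp only [X.d] at hD
    cases ha : a.d z Ds with
    | none => rw [ha] at hD; simp [p2] at hD
    | some A =>
      cases hb : b.d z Ds with
      | none => rw [ha, hb] at hD; simp [p2] at hD
      | some B =>
        rw [ha, hb] at hD
        simp only [p2, Option.some.injEq] at hD
        rw [← hD]
        refine DM.lin (a := 1) (b := -1) (iha A ha) (ihb B hb) (mem_sub (iha A ha).1 (ihb B hb).1) ?_ ?_
        · intro x y X Y hx hy
          rw [one_mul, neg_one_mul, ← sub_eq_add_neg]
          exact mem_sub hx hy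
        · intro f' g' hf hg
          rw [one_mul, neg_one_mul, ← sub_eq_add_neg]
          exact hf.sub hg
  | mul a b iha ihb =>
    intro D hD
    simp only [X.d] at hD
    cases ha : a.d z Ds with
    | none => rw [ha] at hD; simp [p2] at hD
    | some A =>
      cases hb : b.d z Ds with
      | none => rw [ha, hb] at hD; simp [p2] at hD
      | some B =>
        rw [ha, hb] at hD
        simp only [p2, Option.some.injEq] at hD
        rw [← hD]
        have hA := (iha A ha).1
        have hB := (ihb B hb).1
        refine DM.lin (a := b.r (fs.map (fun f => f t))) (b := a.r (fs.map (fun f => f t)))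
          (iha A ha) (ihb B hb) (mem_mul hA hB) ?_ ?_
        · intro x y X Y hx hy
          exact mem_add (mem_mul hB hx) (mem_mul hA hy)
        · intro f' g' hf hg
          have := hf.mul hg
          refine this.congr_deriv ?_
          ring
  | neg a iha =>
    intro D hD
    simp only [X.d] at hD
    cases ha : a.d z Ds with
    | none => rw [ha] at hD; simp [p1] at hD
    | some A =>
      rw [ha] at hD
      simp only [p1, Option.some.injEq] at hD
      rw [← hD]
      refine DM.un (a := -1) (iha A ha) (mem_neg (iha A ha).1) ?_ ?_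
      · intro x X hx
        rw [neg_one_mul]
        exact mem_neg hx
      · intro f' hf
        rw [neg_one_mul]
        exact hf.neg
  | inv a iha =>
    intro D hD
    simp only [X.d] at hD
    cases ha : a.d z Ds with
    | none => rw [ha] at hD; simp [p1] at hD
    | some A =>
      rw [ha] at hD
      simp only [p1, dinv] at hD
      cases hi : Pool.H42IA.inv A.v with
      | none => rw [hi] at hD; simp at hD
      | some r =>
        rw [hi] at hD
        simp only [Option.some.injEq] at hD
        rw [← hD]
        obtain ⟨h1, h2⟩ := mem_inv (iha A ha).1 hi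
        refine DM.un (a := -((a.r (fs.map (fun f => f t)))⁻¹) ^ 2) (iha A ha) h2 ?_ ?_
        · intro x X hx
          exact mem_mul (mem_neg (mem_sqr h2)) hx
        · intro f' hf
          have := hf.inv h1
          refine this.congr_deriv ?_
          field_simp
  | sq a iha =>
    intro D hD
    simp only [X.d] at hD
    cases ha : a.d z Ds with
    | none => rw [ha] at hD; simp [p1] at hD
    | some A =>
      rw [ha] at hD
      simp only [p1, Option.some.injEq] at hD
      rw [← hD]
      refine DM.un (a := (a.r (fs.map (fun f => f t)) + a.r (fs.map (fun f => f t)))) (iha A ha)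
        (mem_sqr (iha A ha).1) ?_ ?_
      · intro x X hx
        exact mem_mul (mem_add (iha A ha).1 (iha A ha).1) hx
      · intro f' hf
        have := hf.pow 2
        refine this.congr_deriv ?_
        simp only [Nat.cast_ofNat]
        norm_num
        left
        ring
  | log a iha =>
    intro D hD
    simp only [X.d] at hD
    cases ha : a.d z Ds with
    | none => rw [ha] at hD; simp [p1] at hD
    | some A =>
      rw [ha] at hD
      simp only [p1, dlog] at hD
      cases hl : Pool.H42IA.log A.v with
      | none => rw [hl] at hD; simp at hD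
      | some l =>
        cases hi : Pool.H42IA.inv A.v with
        | none => rw [hl, hi] at hD; simp at hD
        | some r =>
          rw [hl, hi] at hD
          simp only [Option.some.injEq] at hD
          rw [← hD]
          obtain ⟨h1, h2⟩ := mem_inv (iha A ha).1 hi
          obtain ⟨h3, h4⟩ := mem_log (iha A ha).1 hl
          refine DM.un (a := (a.r (fs.map (fun f => f t)))⁻¹) (iha A ha) h4 ?_ ?_
          · intro x X hx
            exact mem_mul h2 hx
          · intro f' hf
            have := hf.log h1
            refine this.congr_deriv ?_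
            rw [div_eq_inv_mul]

noncomputable def runF : List X → List (ℝ → ℝ) → List (ℝ → ℝ)
  | [], fs => fs
  | e :: es, fs => runF es (fs ++ [fun t => e.r (fs.map (fun f => f t))])

theorem runF_map (es : List X) (t : ℝ) : ∀ fs : List (ℝ → ℝ),
    (runF es fs).map (fun f => f t) = runR es (fs.map (fun f => f t)) := by
  induction es with
  | nil => intro fs; rfl
  | cons e es ih =>
    intro fs
    simp only [runF, runR]
    rw [ih]
    simp

def runD (z : List Iv) : List X → List Dv → Option (List Dv)
  | [], ρ => some ρ
  | e :: es, ρ => match e.d z ρ with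
    | none => none
    | some I => runD z es (ρ ++ [I])

theorem runD_sound (es : List X) {t : ℝ} {h : List ℝ} {z : List Iv}
    (hz : List.Forall₂ Mem (h.map (fun _ => (0:ℝ))) z) :
    ∀ {fs : List (ℝ → ℝ)} {Ds : List Dv}, List.Forall₂ (DM t h) fs Ds →
    ∀ Ds' : List Dv, runD z es Ds = some Ds' → List.Forall₂ (DM t h) (runF es fs) Ds' := by
  induction es with
  | nil =>
    intro fs Ds H Ds' hs
    simp only [runD, Option.some.injEq] at hs
    rw [← hs]
    exact H
  | cons e es ih =>
    intro fs Ds H Ds' hs
    simp only [runD] at hs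
    cases he : e.d z Ds with
    | none => rw [he] at hs; simp at hs
    | some I =>
      rw [he] at hs
      exact ih (forall₂_snoc H (e.d_sound hz H I he)) Ds' hs

/-! ### mean value form -/

def midc (a : Iv) : Int := Int.ediv (Int.add a.lo a.hi) 2

def cen : List Iv → List Iv
  | a :: as => (fun m => ⟨m, m⟩ : Int → Iv) (midc a) :: cen as
  | [] => []

def off : List Iv → List Iv
  | a :: as => (fun m => ⟨Int.sub a.lo m, Int.sub a.hi m⟩ : Int → Iv) (midc a) :: off as
  | [] => []

def zs : List Iv → List Iv
  | _ :: as => ⟨0, 0⟩ :: zs as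
  | [] => []

/-- unit vectors: seeds for the variables `box`, `pre` zeros first -/
def seeds (z : List Iv) : ℕ → List Iv → List Dv
  | _, [] => []
  | n, a :: as => ⟨a, z.set n ⟨1099511627776, 1099511627776⟩⟩ :: seeds z (n + 1) as

def dotI : List Iv → List Iv → Iv
  | a :: as, b :: bs => add (mul a b) (dotI as bs)
  | _, _ => ⟨0, 0⟩

def meet (a b : Iv) : Iv := ⟨imax a.lo b.lo, imin a.hi b.hi⟩

def mvf (h : List Iv) : List Iv → List Dv → List Iv
  | a :: as, D :: Ds => meet D.v (add a (dotI D.d h)) :: mvf h as Ds
  | _, _ => []

/-- enclosures of all entries of the environment over the box, by the mean value form -/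
def encl (es : List X) (box : List Iv) : Option (List Iv) :=
  match runI es (cen box) with
  | none => none
  | some C => match runD (zs box) es (seeds (zs box) 0 box) with
    | none => none
    | some D => some (mvf (off box) C D)

theorem mem_dotI {p h : List ℝ} {P H : List Iv} (hp : List.Forall₂ Mem p P) (hh : List.Forall₂ Mem h H) :
    Mem (dot p h) (dotI P H) := by
  induction hp generalizing h H with
  | nil => cases hh <;> simpa [dot, dotI] using mem_zero
  | cons h1 _ ih =>
    cases hh with
    | nil => simpa [dot, dotI] using mem_zero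
    | cons h2 h3 => exact mem_add (mem_mul h1 h2) (ih h3)

theorem mem_meet {x : ℝ} {a b : Iv} (h1 : Mem x a) (h2 : Mem x b) : Mem x (meet a b) := by
  refine ⟨?_, ?_⟩
  · show ((imax a.lo b.lo : Int) : ℝ) ≤ _
    rw [imax_eq]
    push_cast
    exact max_le h1.1 h2.1
  · show _ ≤ ((imin a.hi b.hi : Int) : ℝ)
    rw [imin_eq]
    push_cast
    exact le_min h1.2 h2.2

/-- the centre as real numbers -/
noncomputable def cenR (box : List Iv) : List ℝ := box.map (fun a => (midc a : ℝ) / S)

theorem mem_cen (box : List Iv) : List.Forall₂ Mem (cenR box) (cen box) := by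
  induction box with
  | nil => exact List.Forall₂.nil
  | cons a as ih =>
    refine List.Forall₂.cons ?_ ih
    have hS := S_pos
    have : (midc a : ℝ) / S * S = midc a := by field_simp
    refine ⟨?_, ?_⟩
    · show ((midc a : Int) : ℝ) ≤ _
      rw [this]
    · show _ ≤ ((midc a : Int) : ℝ)
      rw [this]

theorem mid_bounds {a : Iv} (h : a.lo ≤ a.hi) : a.lo ≤ midc a ∧ midc a ≤ a.hi := by
  have e : midc a = (a.lo + a.hi) / 2 := rfl
  rw [e]
  omega

theorem mem_off {ρ : List ℝ} {box : List Iv} (h : List.Forall₂ Mem ρ box) :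
    List.Forall₂ Mem (List.zipWith (fun x c => x - c) ρ (cenR box)) (off box) := by
  induction h with
  | nil => simp [cenR, off]
  | cons h1 _ ih =>
    rename_i x a _ _ _
    refine List.Forall₂.cons ?_ ih
    have hS := S_pos
    have e : (x - (midc a : ℝ) / S) * S = x * S - midc a := by field_simp
    refine ⟨?_, ?_⟩
    · show ((a.lo - midc a : Int) : ℝ) ≤ _
      rw [e]
      push_cast
      linarith [h1.1]
    · show _ ≤ ((a.hi - midc a : Int) : ℝ)
      rw [e]
      push_cast
      linarith [h1.2]

/-- the segment from the centre to `ρ` -/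
noncomputable def seg (ρ : List ℝ) (box : List Iv) : List (ℝ → ℝ) :=
  List.zipWith (fun x a => fun t => (midc a : ℝ) / S + t * (x - (midc a : ℝ) / S)) ρ box

theorem seg_zero {ρ : List ℝ} {box : List Iv} (h : List.Forall₂ Mem ρ box) :
    (seg ρ box).map (fun f => f 0) = cenR box := by
  induction h with
  | nil => rfl
  | cons h1 _ ih =>
    simp only [seg, List.zipWith_cons_cons, List.map_cons, zero_mul, add_zero, cenR]
    congr 1

theorem seg_one {ρ : List ℝ} {box : List Iv} (h : List.Forall₂ Mem ρ box) :
    (seg ρ box).map (fun f => f 1) = ρ := by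
  induction h with
  | nil => rfl
  | cons h1 _ ih =>
    simp only [seg, List.zipWith_cons_cons, List.map_cons, one_mul]
    congr 1
    ring

theorem zs_mem (ρ : List ℝ) (box : List Iv) (h : ρ.length = box.length) :
    List.Forall₂ Mem (ρ.map (fun _ => (0:ℝ))) (zs box) := by
  induction box generalizing ρ with
  | nil =>
    cases ρ with
    | nil => exact List.Forall₂.nil
    | cons x ρ => simp at h
  | cons a as ih =>
    cases ρ with
    | nil => simp at h
    | cons x ρ => exact List.Forall₂.cons mem_zero (ih ρ (by simpa using h))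

theorem mem_one : Mem 1 ⟨1099511627776, 1099511627776⟩ := by
  refine ⟨?_, ?_⟩ <;> norm_num [S]

theorem dot_set (h : List ℝ) : ∀ n : ℕ, n < h.length →
    dot ((h.map (fun _ => (0:ℝ))).set n 1) h = h.getD n 0 := by
  induction h with
  | nil => intro n hn; simp at hn
  | cons y h ih =>
    intro n hn
    have h0 : dot (h.map (fun _ => (0:ℝ))) h = 0 := by
      clear ih hn
      induction h with
      | nil => simp [dot]
      | cons y h ih =>
        simp only [List.map_cons, dot, zero_mul, zero_add]
        exact ih
    cases n with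
    | zero => simp only [List.map_cons, List.set_cons_zero, dot, one_mul, List.getD_cons_zero]; rw [h0, add_zero]
    | succ n =>
      simp only [List.map_cons, List.set_cons_succ, dot, zero_mul, zero_add, List.getD_cons_succ]
      exact ih n (by simpa using hn)

theorem forall₂_set {P : List Iv} {p : List ℝ} (hp : List.Forall₂ Mem p P) {x : ℝ} {A : Iv}
    (h : Mem x A) (n : ℕ) : List.Forall₂ Mem (p.set n x) (P.set n A) := by
  induction hp generalizing n with
  | nil => simp
  | cons h1 h2 ih =>
    cases n with
    | zero => exact List.Forall₂.cons h h2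
    | succ n => exact List.Forall₂.cons h1 (ih n)

theorem seeds_sound (z : List Iv) (h : List ℝ) (hz : List.Forall₂ Mem (h.map (fun _ => (0:ℝ))) z) (t : ℝ)
    (ht0 : 0 ≤ t) (ht1 : t ≤ 1) :
    ∀ (ρ : List ℝ) (box : List Iv) (n : ℕ), List.Forall₂ Mem ρ box →
    (∀ i, i < ρ.length → h.getD (n + i) 0 = (List.zipWith (fun x c => x - c) ρ (cenR box)).getD i 0) →
    n + ρ.length ≤ h.length →
    List.Forall₂ (DM t h) (seg ρ box) (seeds z n box) := by
  intro ρ box n H
  induction H generalizing n with
  | nil => intro _ _; exact List.Forall₂.nil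
  | cons h1 h2 ih =>
    rename_i x a ρ box
    intro hh hn
    refine List.Forall₂.cons ?_ (ih (n + 1) ?_ ?_)
    · have hS := S_pos
      have hlen : n < h.length := by
        simp only [List.length_cons] at hn
        omega
      refine ⟨?_, (h.map (fun _ => (0:ℝ))).set n 1, forall₂_set hz mem_one n, by simp, ?_⟩
      · have hlohi : a.lo ≤ a.hi := by
          have : (a.lo : ℝ) ≤ (a.hi : ℝ) := h1.1.trans h1.2
          exact_mod_cast this
        obtain ⟨hm1, hm2⟩ := mid_bounds hlohi
        have hm1' : (a.lo : ℝ) ≤ (midc a : ℝ) := by exact_mod_cast hm1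
        have hm2' : (midc a : ℝ) ≤ (a.hi : ℝ) := by exact_mod_cast hm2
        have e : ((midc a : ℝ) / S + t * (x - (midc a : ℝ) / S)) * S = (1 - t) * midc a + t * (x * S) := by
          field_simp
          ring
        refine ⟨?_, ?_⟩
        · show _ ≤ ((midc a : ℝ) / S + t * (x - (midc a : ℝ) / S)) * S
          rw [e]
          nlinarith [h1.1]
        · show ((midc a : ℝ) / S + t * (x - (midc a : ℝ) / S)) * S ≤ _
          rw [e]
          nlinarith [h1.2]
      · rw [dot_set h n hlen]
        have := hh 0 (by simp)
        rw [add_zero] at this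
        rw [this]
        have e2 : (List.zipWith (fun x c => x - c) (x :: ρ) (cenR (a :: box))).getD 0 0
            = x - (midc a : ℝ) / S := by simp [cenR]
        rw [e2]
        have h3 := ((hasDerivAt_id t).mul_const (x - (midc a : ℝ) / S)).const_add ((midc a : ℝ) / S)
        simpa using h3
    · intro i hi
      have := hh (i + 1) (by simpa using hi)
      rw [show n + (i + 1) = n + 1 + i by ring] at this
      rw [this]
      simp [cenR]
    · simp only [List.length_cons] at hn
      omega

theorem mvf_sound {h : List ℝ} {H : List Iv} (hH : List.Forall₂ Mem h H) :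
    ∀ (fs : List (ℝ → ℝ)) (C : List Iv) (D : List Dv),
    List.Forall₂ Mem (fs.map (fun f => f 0)) C →
    (∀ t, 0 ≤ t → t ≤ 1 → List.Forall₂ (DM t h) fs D) →
    List.Forall₂ Mem (fs.map (fun f => f 1)) (mvf H C D) := by
  intro fs
  induction fs with
  | nil =>
    intro C D h1 h2
    have := h2 0 le_rfl zero_le_one
    cases this
    cases h1
    exact List.Forall₂.nil
  | cons f fs ih =>
    intro C D h1 h2
    cases h1 with
    | cons h3 h4 =>
      rename_i A C
      cases D with
      | nil =>
        have := h2 0 le_rfl zero_le_one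
        cases this
      | cons D0 Ds =>
        have h5 : ∀ t, 0 ≤ t → t ≤ 1 → DM t h f D0 := fun t h6 h7 => by
          have := h2 t h6 h7
          cases this with
          | cons h8 _ => exact h8
        have h6 : ∀ t, 0 ≤ t → t ≤ 1 → List.Forall₂ (DM t h) fs Ds := fun t h6 h7 => by
          have := h2 t h6 h7
          cases this with
          | cons _ h8 => exact h8
        refine List.Forall₂.cons ?_ (ih C Ds h4 h6)
        refine mem_meet (h5 1 zero_le_one le_rfl).1 ?_
        -- mean value theorem
        have hd : ∀ t, 0 ≤ t → t ≤ 1 → ∃ f' : ℝ, HasDerivAt f f' t ∧ Mem f' (dotI D0.d H) := by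
          intro t h7 h8
          obtain ⟨_, p, hp1, _, hp3⟩ := h5 t h7 h8
          exact ⟨_, hp3, mem_dotI hp1 hH⟩
        have hc : ContinuousOn f (Set.Icc 0 1) := fun t ht => by
          obtain ⟨f', hf, _⟩ := hd t ht.1 ht.2
          exact hf.continuousAt.continuousWithinAt
        have hdd : DifferentiableOn ℝ f (Set.Ioo 0 1) := fun t ht => by
          obtain ⟨f', hf, _⟩ := hd t ht.1.le ht.2.le
          exact hf.differentiableAt.differentiableWithinAt
        obtain ⟨ξ, hξ, he⟩ := exists_deriv_eq_slope f (zero_lt_one) hc hdd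
        obtain ⟨f', hf, hm⟩ := hd ξ hξ.1.le hξ.2.le
        rw [hf.deriv] at he
        have e : f 1 = f 0 + f' := by
          rw [he]; ring
        show Mem (f 1) (add A (dotI D0.d H))
        rw [e]
        exact mem_add h3 hm

theorem off_len {ρ : List ℝ} {box : List Iv} (h : List.Forall₂ Mem ρ box) :
    (List.zipWith (fun x c => x - c) ρ (cenR box)).length = box.length := by
  have := h.length_eq
  simp [cenR, this]

/-- **Main soundness theorem**: enclosures by the mean value form. -/
theorem encl_sound (es : List X) {ρ : List ℝ} {box : List Iv} (h : List.Forall₂ Mem ρ box)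
    (E : List Iv) (hE : encl es box = some E) : List.Forall₂ Mem (runR es ρ) E := by
  unfold encl at hE
  cases hC : runI es (cen box) with
  | none => rw [hC] at hE; simp at hE
  | some C =>
    cases hD : runD (zs box) es (seeds (zs box) 0 box) with
    | none => rw [hC, hD] at hE; simp at hE
    | some D =>
      rw [hC, hD] at hE
      simp only [Option.some.injEq] at hE
      rw [← hE]
      have hlen := h.length_eq
      set hh := List.zipWith (fun x c => x - c) ρ (cenR box) with hhdef
      have hhlen : hh.length = box.length := off_len h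
      have hz : List.Forall₂ Mem (hh.map (fun _ => (0:ℝ))) (zs box) := zs_mem hh box hhlen
      have h1 : ∀ t, 0 ≤ t → t ≤ 1 → List.Forall₂ (DM t hh) (runF es (seg ρ box)) D := by
        intro t ht0 ht1
        refine runD_sound es hz ?_ D hD
        refine seeds_sound (zs box) hh hz t ht0 ht1 ρ box 0 h ?_ ?_
        · intro i _
          rw [zero_add]
        · rw [zero_add, hhlen, hlen]
      have h2 : List.Forall₂ Mem ((runF es (seg ρ box)).map (fun f => f 0)) C := by
        rw [runF_map, seg_zero h]
        exact runI_sound es (mem_cen box) C hC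
      have h3 := mvf_sound (mem_off h) (runF es (seg ρ box)) C D h2 h1
      rw [runF_map, seg_one h] at h3
      exact h3

/-! ### bisection -/

inductive Tr
  | l
  | s (i : ℕ) (a b : Tr)

def spl (left : Bool) : ℕ → List Iv → List Iv
  | 0, a :: as => (bif left then ⟨a.lo, midc a⟩ else ⟨midc a, a.hi⟩) :: as
  | n + 1, a :: as => a :: spl left n as
  | _, [] => []

def chk (es : List X) (test : List Iv → Bool) : Tr → List Iv → Bool
  | .l, box => match encl es box with
    | none => false
    | some E => test E
  | .s i a b, box => bif chk es test a (spl true i box) then chk es test b (spl false i box) else false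

theorem spl_cover {ρ : List ℝ} {box : List Iv} (h : List.Forall₂ Mem ρ box) (i : ℕ) :
    List.Forall₂ Mem ρ (spl true i box) ∨ List.Forall₂ Mem ρ (spl false i box) := by
  induction h generalizing i with
  | nil => left; cases i <;> exact List.Forall₂.nil
  | cons h1 h2 ih =>
    rename_i x a _ _
    cases i with
    | zero =>
      rcases le_total (x * S) (midc a : ℝ) with h3 | h3
      · left
        exact List.Forall₂.cons ⟨h1.1, h3⟩ h2
      · right
        exact List.Forall₂.cons ⟨h3, h1.2⟩ h2
    | succ i =>
      rcases ih i with h3 | h3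
      · left; exact List.Forall₂.cons h1 h3
      · right; exact List.Forall₂.cons h1 h3

theorem chk_sound (es : List X) (test : List Iv → Bool) : ∀ (T : Tr) {ρ : List ℝ} {box : List Iv},
    List.Forall₂ Mem ρ box → chk es test T box = true →
    ∃ E : List Iv, List.Forall₂ Mem (runR es ρ) E ∧ test E = true := by
  intro T
  induction T with
  | l =>
    intro ρ box h hc
    simp only [chk] at hc
    cases hE : encl es box with
    | none => rw [hE] at hc; simp at hc
    | some E =>
      rw [hE] at hc
      exact ⟨E, encl_sound es h E hE, hc⟩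
  | s i a b iha ihb =>
    intro ρ box h hc
    simp only [chk] at hc
    cases h1 : chk es test a (spl true i box)
    · rw [h1] at hc; simp at hc
    · rw [h1] at hc
      rcases spl_cover h i with h2 | h2
      · exact iha h2 h1
      · exact ihb h2 hc

/-- the `k`-th entry of the environment is positive -/
def posT (k : ℕ) (E : List Iv) : Bool := leb 1 (E.getD k ⟨0, 0⟩).lo

theorem posT_sound {k : ℕ} {ρ : List ℝ} {E : List Iv} (h : List.Forall₂ Mem ρ E) (ht : posT k E = true) :
    0 < ρ.getD k 0 := by
  have h1 := (leb_iff _ _).1 ht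
  have h2 := (forall₂_getD h 0 ⟨0, 0⟩ mem_zero k).1
  have hS := S_pos
  have h3 : (1:ℝ) ≤ ((E.getD k ⟨0, 0⟩).lo : ℝ) := by exact_mod_cast h1
  by_contra hc
  push Not at hc
  nlinarith

end Pool.H42IA
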